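import Mathlib

set_option autoImplicit false
set_option maxHeartbeats 400000

namespace Pool.Agent.Results.MP_1d13cc_al.NotAcyclic

/-- `xy ≠ x` and `yx ≠ x` whenever `y` is not a unit. -/
def UnitCancellative (H : Type) [Monoid H] : Prop :=
  ∀ x y : H, ¬ IsUnit y → x * y ≠ x ∧ y * x ≠ x

/-- `uxv ≠ x` whenever `u` or `v` is not a unit. -/
def Acyclic (H : Type) [Monoid H] : Prop :=
  ∀ u v x : H, (¬ IsUnit u ∨ ¬ IsUnit v) → u * x * v ≠ x

/-- The principal two-sided ideal `HaH`. -/
def prin {H : Type} [Monoid H] (a : H) : Set H := {z | ∃ x y : H, z = x * a * y}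

/-- No strictly increasing sequence of principal two-sided ideals. -/
def ACCP (H : Type) [Monoid H] : Prop :=
  ¬ ∃ a : ℕ → H, ∀ n, prin (a n) ⊂ prin (a (n + 1))

/-- affine maps `t ↦ a t + b` with `a > 0` and (`b > 0` or the identity). -/
@[ext] structure M where
  a : ℚ
  b : ℚ
  ha : 0 < a
  hb : 0 < b ∨ (a = 1 ∧ b = 0)

theorem M.b_nonneg (x : M) : 0 ≤ x.b := by
  rcases x.hb with h | h
  · exact h.le
  · exact h.2.ge

instance : Mul M := ⟨fun x y => ⟨x.a * y.a, x.a * y.b + x.b, mul_pos x.ha y.ha, by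
  rcases x.hb with h | h
  · left; have := mul_nonneg x.ha.le y.b_nonneg; linarith
  · rcases y.hb with h' | h'
    · left; rw [h.1, h.2]; linarith
    · right; rw [h.1, h.2, h'.1, h'.2]; norm_num⟩⟩

instance : One M := ⟨⟨1, 0, one_pos, Or.inr ⟨rfl, rfl⟩⟩⟩

@[simp] theorem mul_a (x y : M) : (x * y).a = x.a * y.a := rfl
@[simp] theorem mul_b (x y : M) : (x * y).b = x.a * y.b + x.b := rfl
@[simp] theorem one_a : (1 : M).a = 1 := rfl
@[simp] theorem one_b : (1 : M).b = 0 := rfl

instance : Monoid M where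
  mul_assoc x y z := by ext <;> simp <;> ring
  one_mul x := by ext <;> simp
  mul_one x := by ext <;> simp

theorem lcancel (x y z : M) (h : x * y = x * z) : y = z := by
  have h1 := congrArg M.a h
  have h2 := congrArg M.b h
  simp only [mul_a, mul_b] at h1 h2
  ext
  · exact mul_left_cancel₀ x.ha.ne' h1
  · exact mul_left_cancel₀ x.ha.ne' (by linarith)

theorem rcancel (x y z : M) (h : y * x = z * x) : y = z := by
  have h1 := congrArg M.a h
  have h2 := congrArg M.b h
  simp only [mul_a, mul_b] at h1 h2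
  have h3 : y.a = z.a := mul_right_cancel₀ x.ha.ne' h1
  ext
  · exact h3
  · rw [h3] at h2; linarith

theorem simple (x z : M) (hx : 0 < x.b) (hz : 0 < z.b) :
    ∃ u v : M, 0 < u.b ∧ z = u * x * v := by
  have h1 := x.ha
  have h2 := z.ha
  refine ⟨⟨z.b / (3 * x.b), z.b / 3, by positivity, Or.inl (by positivity)⟩,
    ⟨z.a * (3 * x.b) / (z.b * x.a), x.b / x.a, by positivity, Or.inl (by positivity)⟩,
    by show 0 < z.b / 3; positivity, ?_⟩
  ext
  · simp only [mul_a]; field_simp
  · simp only [mul_a, mul_b]; field_simp; ring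

theorem prin_eq (x : M) (hx : 0 < x.b) : prin x = {z | 0 < z.b} := by
  ext z
  constructor
  · rintro ⟨u, v, rfl⟩
    have h1 := mul_pos u.ha hx
    have h2 := mul_nonneg (mul_pos u.ha x.ha).le v.b_nonneg
    have h3 := u.b_nonneg
    show 0 < (u * x * v).b
    simp only [mul_a, mul_b]; linarith
  · intro hz
    obtain ⟨u, v, _, h⟩ := simple x z hx hz
    exact ⟨u, v, h⟩

theorem eq_one_of (x : M) (hx : ¬ 0 < x.b) : x = 1 := by
  rcases x.hb with h | h
  · exact absurd h hx
  · ext
    · exact h.1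
    · exact h.2

theorem prin_one : prin (1 : M) = Set.univ := by
  ext z; simp only [Set.mem_univ, iff_true]; exact ⟨z, 1, by simp⟩

theorem not_unit (u : M) (hu : 0 < u.b) : ¬ IsUnit u := by
  intro h
  obtain ⟨v, hv⟩ := h.exists_right_inv
  have h2 := congrArg M.b hv
  simp only [mul_b, one_b] at h2
  have := mul_nonneg u.ha.le v.b_nonneg
  linarith

theorem result : ∃ (H : Type) (_ : Monoid H),
    IsCancelMul H ∧ UnitCancellative H ∧ ACCP H ∧ ¬ Acyclic H := by
  refine ⟨M, inferInstance, ?_, ?_, ?_, ?_⟩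
  · exact { mul_left_cancel := fun x y z h => lcancel x y z h
            mul_right_cancel := fun x y z h => rcancel x y z h }
  · intro x y hy
    constructor
    · intro h
      exact hy (by rw [lcancel x y 1 (by rw [h, mul_one])]; exact isUnit_one)
    · intro h
      exact hy (by rw [rcancel x y 1 (by rw [h, one_mul])]; exact isUnit_one)
  · rintro ⟨a, ha⟩
    have key : ∀ n, 0 < (a n).b := by
      intro n
      by_contra h
      have := ha n
      rw [eq_one_of _ h, prin_one] at this
      exact this.2 (Set.subset_univ _)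
    have := ha 0
    rw [prin_eq _ (key 0), prin_eq _ (key 1)] at this
    exact this.2 (subset_refl _)
  · intro h
    let x : M := ⟨1, 1, one_pos, Or.inl one_pos⟩
    obtain ⟨u, v, hu, hx⟩ := simple x x one_pos one_pos
    exact h u v x (Or.inl (not_unit u hu)) hx.symm

end Pool.Agent.Results.MP_1d13cc_al.NotAcyclic
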